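import Mathlib
set_option autoImplicit false

/-! Numerical choice of the scale. -/

namespace Pool.Agent.V5helper1.PC

open Real

theorem log_le_pow {x a : ℝ} (hx : 1 ≤ x) (ha : 0 < a) : Real.log x ≤ (1 / a) * x ^ a := by
  have h0 : 0 < x := by linarith
  have h1 : Real.log x = (1 / a) * Real.log (x ^ a) := by
    rw [Real.log_rpow h0]; field_simp
  rw [h1]
  apply mul_le_mul_of_nonneg_left _ (by positivity)
  have := Real.log_le_sub_one_of_pos (Real.rpow_pos_of_pos h0 a)
  linarith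

/-- the choice of the scale `j = 2 i` -/
theorem scale_choice {κ η : ℝ} (hκ : 0.69 < κ) (hη : 0 < η) (hη1 : η ≤ 1) :
    ∃ j : ℕ, ∀ b D ε : ℝ, b = 4 * κ * (j + 1) * (1 + η / 16) ^ (2 * j + 1) →
      D = 2 / (η / 16) * κ →
      ε = 2 * κ * (j + 2) * (1 + η / 16) ^ (j + 1) / 2 ^ j →
      4 * Real.sqrt ε ≤ 1 / 12 ∧
      (∀ l : ℝ, l ≤ κ →
        (1 / 4 : ℝ) ^ (2 ^ j) ≤ Real.exp (-(2 * b + 2 * l + 2 * D)) / 4 ∧
        8 * Real.exp (2 * b + 2 * l + 2 * D) ≤
          Real.exp (20000000 / η * (κ * (1 + κ) ^ η))) := by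
  have hlog2 : (0.6931 : ℝ) < Real.log 2 := by have := Real.log_two_gt_d9; linarith
  have hlog2' : Real.log 2 < (0.6932 : ℝ) := by have := Real.log_two_lt_d9; linarith
  set θ : ℝ := η / 16 with hθ
  have hθ0 : 0 < θ := by positivity
  have hθ1 : θ ≤ 1 / 16 := by rw [hθ]; linarith
  obtain ⟨n, hn1, hn2⟩ := exists_nat_pow_near (show (1 : ℝ) ≤ 1 + κ by linarith) (one_lt_two)
  obtain ⟨L, hL⟩ : ∃ L : ℕ, L = n + 1 := ⟨_, rfl⟩
  have hL1 : κ ≤ 2 ^ L := by rw [hL]; linarith
  have hL2 : (2 : ℝ) ^ L ≤ 2 * (1 + κ) := by rw [hL, pow_succ]; linarith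
  have h1θ : 1 ≤ 1 / θ := by rw [le_div_iff₀ hθ0]; linarith
  obtain ⟨u, hu1, hu2⟩ := exists_nat_pow_near h1θ (one_lt_two)
  obtain ⟨s, hs⟩ : ∃ s : ℕ, s = u + 1 := ⟨_, rfl⟩
  have hs1 : 1 / θ ≤ 2 ^ s := by rw [hs]; linarith
  have hs2 : (2 : ℝ) ^ s ≤ 2 * (1 / θ) := by rw [hs, pow_succ]; linarith
  obtain ⟨i, hi⟩ : ∃ i : ℕ, i = L + s + 13 := ⟨_, rfl⟩
  have h16 : (16 : ℝ) ≤ 2 ^ s := by
    refine le_trans ?_ hs1
    rw [le_div_iff₀ hθ0]; linarith
  have h2i : (8192 : ℝ) * κ * (1 / θ) ≤ 2 ^ i := by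
    have e : (2 : ℝ) ^ i = 2 ^ L * 2 ^ s * 8192 := by rw [hi, pow_add, pow_add]; norm_num
    rw [e]
    have : κ * (1 / θ) ≤ 2 ^ L * 2 ^ s := mul_le_mul hL1 hs1 (by positivity) (by positivity)
    linarith
  have h16θ : (16 : ℝ) ≤ 1 / θ := by rw [le_div_iff₀ hθ0]; linarith
  have h2i' : (131072 : ℝ) * κ ≤ 2 ^ i := by
    have : κ * 16 ≤ κ * (1 / θ) := mul_le_mul_of_nonneg_left h16θ (by linarith)
    linarith
  have h2ipos : (0 : ℝ) < 2 ^ i := by positivity
  have h2ibig : (90000 : ℝ) ≤ 2 ^ i := by linarith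
  -- exponentials
  have hexp2i : Real.exp (0.65 * i) ≤ 2 ^ i := by
    have : (2 : ℝ) ^ i = Real.exp (Real.log 2 * i) := by
      rw [mul_comm, Real.exp_nat_mul, Real.exp_log (by norm_num)]
    rw [this]
    apply Real.exp_le_exp.2
    exact mul_le_mul_of_nonneg_right (by linarith) (Nat.cast_nonneg i)
  have hi0 : (0 : ℝ) ≤ i := Nat.cast_nonneg i
  have hlin : (2 * (i : ℝ) + 2) ≤ 5 * Real.exp (0.4 * i) := by
    have := Real.add_one_le_exp (0.4 * (i : ℝ))
    linarith
  have hpow : ∀ k : ℕ, (1 + θ) ^ k ≤ Real.exp (θ * k) := by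
    intro k
    have h : 1 + θ ≤ Real.exp θ := by
      have := Real.add_one_le_exp θ
      linarith
    calc (1 + θ) ^ k ≤ (Real.exp θ) ^ k := pow_le_pow_left₀ (by linarith) h k
      _ = Real.exp (θ * k) := by rw [← Real.exp_nat_mul, mul_comm]
  have he16 : Real.exp (1 / 16) ≤ 1.2 := by
    have h := Real.exp_one_lt_d9
    have h1 : Real.exp 1 = Real.exp (1 / 16) ^ 16 := by
      rw [← Real.exp_nat_mul]; norm_num
    by_contra hc
    push Not at hc
    have h2 : (1.2 : ℝ) ^ 16 < Real.exp (1 / 16) ^ 16 := pow_lt_pow_left₀ hc (by norm_num) (by norm_num)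
    rw [← h1] at h2
    norm_num at h2
    linarith
  have hmain : (2 * (i : ℝ) + 2) * (1 + θ) ^ (4 * i + 1) ≤ 6 * 2 ^ i := by
    have h1 := hpow (4 * i + 1)
    have h2 : θ * ((4 * i + 1 : ℕ) : ℝ) ≤ 0.25 * i + 1 / 16 := by
      push_cast
      have : θ * (4 * (i : ℝ) + 1) ≤ 1 / 16 * (4 * (i : ℝ) + 1) :=
        mul_le_mul_of_nonneg_right hθ1 (by linarith)
      linarith
    have h3 : (1 + θ) ^ (4 * i + 1) ≤ Real.exp (0.25 * i) * 1.2 := by
      refine h1.trans ((Real.exp_le_exp.2 h2).trans ?_)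
      rw [Real.exp_add]
      exact mul_le_mul_of_nonneg_left he16 (Real.exp_pos _).le
    calc (2 * (i : ℝ) + 2) * (1 + θ) ^ (4 * i + 1)
        ≤ (5 * Real.exp (0.4 * i)) * (Real.exp (0.25 * i) * 1.2) :=
          mul_le_mul hlin h3 (by positivity) (by positivity)
      _ = 6 * Real.exp (0.65 * i) := by
          rw [show (0.65 : ℝ) * i = 0.4 * i + 0.25 * i by ring, Real.exp_add]; ring
      _ ≤ 6 * 2 ^ i := mul_le_mul_of_nonneg_left hexp2i (by norm_num)
  have hone : (1 : ℝ) ≤ 1 + θ := by linarith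
  refine ⟨2 * i, ?_⟩
  intro b D ε hb hD hε
  have hpow2 : (2 : ℝ) ^ (2 * i) = 2 ^ i * 2 ^ i := by rw [two_mul, pow_add]
  have hbb : b ≤ 4 * κ * (6 * 2 ^ i) := by
    rw [hb]
    have e : 2 * (2 * i) + 1 = 4 * i + 1 := by ring
    rw [e]
    push_cast
    have h1 : (2 * (i : ℝ) + 1) * (1 + θ) ^ (4 * i + 1) ≤ (2 * (i : ℝ) + 2) * (1 + θ) ^ (4 * i + 1) :=
      mul_le_mul_of_nonneg_right (by linarith) (by positivity)
    have h2 := mul_le_mul_of_nonneg_left (h1.trans hmain) (show 0 ≤ 4 * κ by linarith)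
    linarith
  have hb0 : 0 ≤ b := by rw [hb]; positivity
  have hDle : D ≤ 2 ^ i / 4096 := by
    rw [hD]
    have : 2 / θ * κ = 2 * (κ * (1 / θ)) := by ring
    rw [this]
    linarith
  have hD0 : 0 ≤ D := by rw [hD]; positivity
  refine ⟨?_, ?_⟩
  · have hε2 : ε ≤ 1 / 2304 := by
      rw [hε, div_le_iff₀ (by positivity), hpow2]
      push_cast
      have h1 : (1 + θ) ^ (2 * i + 1) ≤ (1 + θ) ^ (4 * i + 1) := pow_le_pow_right₀ hone (by omega)
      have h2 : (2 * (i : ℝ) + 2) * (1 + θ) ^ (2 * i + 1) ≤ 6 * 2 ^ i :=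
        (mul_le_mul_of_nonneg_left h1 (by positivity)).trans hmain
      have h3 := mul_le_mul_of_nonneg_left h2 (show 0 ≤ 2 * κ by linarith)
      have h4 : 2 * κ * (6 * 2 ^ i) ≤ 1 / 2304 * (2 ^ i * 2 ^ i) := by
        have h7 : κ * 2 ^ i * 131072 ≤ 2 ^ i * 2 ^ i := by
          have := mul_le_mul_of_nonneg_right h2i' h2ipos.le
          linarith
        have h8 : 0 ≤ κ * 2 ^ i := by positivity
        have h9 : 2 * κ * (6 * 2 ^ i) = 12 * (κ * 2 ^ i) := by ring
        rw [h9]
        linarith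
      linarith
    have h1 : Real.sqrt ε ≤ 1 / 48 := by
      rw [show (1 / 48 : ℝ) = Real.sqrt (1 / 2304) by
        rw [show (1 / 2304 : ℝ) = (1 / 48) ^ 2 by norm_num, Real.sqrt_sq (by norm_num)]]
      exact Real.sqrt_le_sqrt hε2
    linarith
  · intro l hl
    constructor
    · -- tail
      have h1 : (1 / 4 : ℝ) ^ (2 ^ (2 * i)) = Real.exp (-(2 * Real.log 2 * 2 ^ (2 * i))) := by
        have e1 : (1 / 4 : ℝ) = Real.exp (-(2 * Real.log 2)) := by
          rw [Real.exp_neg, two_mul, Real.exp_add, Real.exp_log (by norm_num)]; norm_num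
        rw [e1, ← Real.exp_nat_mul]
        congr 1
        push_cast
        ring
      have h2 : Real.exp (-(2 * b + 2 * l + 2 * D)) / 4 =
          Real.exp (-(2 * b + 2 * l + 2 * D + 2 * Real.log 2)) := by
        have e2 : (4 : ℝ) = Real.exp (2 * Real.log 2) := by
          rw [two_mul, Real.exp_add, Real.exp_log (by norm_num)]; norm_num
        rw [e2, ← Real.exp_sub]
        congr 1
        ring
      rw [h1, h2]
      apply Real.exp_le_exp.2
      rw [neg_le_neg_iff, hpow2]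
      have h5 : κ * 2 ^ i * 131072 ≤ 2 ^ i * 2 ^ i := by
        have := mul_le_mul_of_nonneg_right h2i' h2ipos.le
        linarith
      have h6 : (90000 : ℝ) * 2 ^ i ≤ 2 ^ i * 2 ^ i :=
        mul_le_mul_of_nonneg_right h2ibig h2ipos.le
      have h7 : 2 * b ≤ 48 * (κ * 2 ^ i) := by linarith
      have h8 : 2 * l ≤ 2 ^ i := by linarith
      have h9 : 1.386 * ((2 : ℝ) ^ i * 2 ^ i) ≤ 2 * Real.log 2 * (2 ^ i * 2 ^ i) :=
        mul_le_mul_of_nonneg_right (by linarith) (by positivity)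
      linarith
    · -- size
      have hx1 : (1 : ℝ) ≤ 1 + κ := by linarith
      have hx0 : (0 : ℝ) < 1 + κ := by linarith
      have hLlog : (L : ℝ) * Real.log 2 ≤ Real.log 2 + Real.log (1 + κ) := by
        have h := Real.log_le_log (by positivity) hL2
        rw [Real.log_pow, Real.log_mul (by norm_num) hx0.ne'] at h
        exact h
      have hlog0 : 0 ≤ Real.log (1 + κ) := Real.log_nonneg hx1
      have hLle : (L : ℝ) ≤ 1 + 1.45 * Real.log (1 + κ) := by
        have h1 : (L : ℝ) * Real.log 2 ≤ (1 + 1.45 * Real.log (1 + κ)) * Real.log 2 := by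
          have h2 : Real.log (1 + κ) * 1 ≤ Real.log (1 + κ) * (1.45 * Real.log 2) :=
            mul_le_mul_of_nonneg_left (by linarith) hlog0
          linarith
        exact le_of_mul_le_mul_right h1 (by linarith)
      have hslog : (s : ℝ) * Real.log 2 ≤ Real.log 2 + Real.log (1 / θ) := by
        have h := Real.log_le_log (by positivity) hs2
        rw [Real.log_pow, Real.log_mul (by norm_num) (by positivity)] at h
        exact h
      have hlogθ : Real.log (1 / θ) ≤ 2 * (1 / θ) ^ (1 / 2 : ℝ) := by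
        have := log_le_pow h1θ (show (0 : ℝ) < 1 / 2 by norm_num)
        linarith
      have hlogθ' : Real.log (1 / θ) ≤ 1 / θ - 1 := by
        exact Real.log_le_sub_one_of_pos (by positivity)
      have hsle : (s : ℝ) ≤ 1 + 1.45 * Real.log (1 / θ) := by
        have h1 : (s : ℝ) * Real.log 2 ≤ (1 + 1.45 * Real.log (1 / θ)) * Real.log 2 := by
          have h3 : 0 ≤ Real.log (1 / θ) := Real.log_nonneg h1θ
          have h2 : Real.log (1 / θ) * 1 ≤ Real.log (1 / θ) * (1.45 * Real.log 2) :=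
            mul_le_mul_of_nonneg_left (by linarith) h3
          linarith
        exact le_of_mul_le_mul_right h1 (by linarith)
      -- `s ≤ 2/θ`, `θ s ≤ 2`
      have hsθ : (s : ℝ) ≤ 1.45 / θ := by
        have : (1.45 : ℝ) / θ = 1.45 * (1 / θ) := by ring
        rw [this]; linarith
      have hθs : θ * s ≤ 1.45 := by
        have := mul_le_mul_of_nonneg_left hsθ hθ0.le
        have e : θ * (1.45 / θ) = 1.45 := by field_simp
        linarith
      -- growth factor
      have hfac : (1 + θ) ^ (4 * i + 1) ≤ 15000 * (1 + κ) ^ (η / 2) := by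
        refine (hpow _).trans ?_
        have h1 : θ * ((4 * i + 1 : ℕ) : ℝ) ≤ 9.5 + (η / 2) * Real.log (1 + κ) := by
          rw [hi]
          push_cast
          have h2 : θ * L ≤ θ * (1 + 1.45 * Real.log (1 + κ)) :=
            mul_le_mul_of_nonneg_left hLle hθ0.le
          have h3 : θ * Real.log (1 + κ) = η / 16 * Real.log (1 + κ) := by rw [hθ]
          have h4 : 0 ≤ η * Real.log (1 + κ) := mul_nonneg hη.le hlog0
          have h5 : θ * (4 * ((L : ℝ) + s + 13) + 1) = 4 * (θ * L) + 4 * (θ * s) + 53 * θ := by ring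
          have h6 : θ * (1 + 1.45 * Real.log (1 + κ)) = θ + 1.45 * (θ * Real.log (1 + κ)) := by ring
          rw [h5]
          rw [h6, h3] at h2
          linarith
        refine (Real.exp_le_exp.2 h1).trans ?_
        rw [Real.exp_add]
        have h2 : Real.exp (η / 2 * Real.log (1 + κ)) = (1 + κ) ^ (η / 2) := by
          rw [Real.rpow_def_of_pos hx0]; congr 1; ring
        rw [h2]
        apply mul_le_mul_of_nonneg_right _ (by positivity)
        have h3 : Real.exp 9.5 ≤ Real.exp 1 ^ 9 * Real.exp 1 ^ (1/2 : ℝ) := by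
          rw [← Real.exp_nat_mul, ← Real.exp_mul, ← Real.exp_add]
          apply Real.exp_le_exp.2; norm_num
        have h4 : Real.exp 1 ^ 9 ≤ 8200 := by
          calc Real.exp 1 ^ 9 ≤ 2.7182818286 ^ 9 :=
                pow_le_pow_left₀ (Real.exp_pos _).le Real.exp_one_lt_d9.le 9
            _ ≤ 8200 := by norm_num
        have h5 : Real.exp 1 ^ (1/2 : ℝ) ≤ 1.7 := by
          rw [← Real.sqrt_eq_rpow, Real.sqrt_le_left (by norm_num)]
          have := Real.exp_one_lt_d9
          norm_num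
          linarith
        calc Real.exp 9.5 ≤ Real.exp 1 ^ 9 * Real.exp 1 ^ (1/2 : ℝ) := h3
          _ ≤ 8200 * 1.7 := mul_le_mul h4 h5 (by positivity) (by norm_num)
          _ ≤ 15000 := by norm_num
      -- number of scales
      have hηinv : (1 : ℝ) ≤ 1 / η := by rw [le_div_iff₀ hη]; linarith
      have hpowone : (1 : ℝ) ≤ (1 + κ) ^ (η / 2) := Real.one_le_rpow hx1 (by positivity)
      have hnum : (2 * (i : ℝ) + 1) ≤ 90 / η * (1 + κ) ^ (η / 2) := by
        have h1 : Real.log (1 + κ) ≤ (2 / η) * (1 + κ) ^ (η / 2) := by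
          have := log_le_pow hx1 (show 0 < η / 2 by positivity)
          have e : 1 / (η / 2) = 2 / η := by field_simp
          rwa [e] at this
        have hi' : (i : ℝ) = L + s + 13 := by rw [hi]; push_cast; ring
        have h2 : (s : ℝ) ≤ 23.2 / η := by
          have e : (1.45 : ℝ) / θ = 23.2 / η := by rw [hθ]; field_simp; norm_num
          rwa [e] at hsθ
        have h3 : (29 : ℝ) ≤ 29 * (1 / η) := by linarith
        have h4 : (1 / η) ≤ (1 / η) * (1 + κ) ^ (η / 2) :=
          le_mul_of_one_le_right (by positivity) hpowone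
        have h5 : 90 / η * (1 + κ) ^ (η / 2) = 90 * ((1 / η) * (1 + κ) ^ (η / 2)) := by ring
        have h6 : (2 / η) * (1 + κ) ^ (η / 2) = 2 * ((1 / η) * (1 + κ) ^ (η / 2)) := by ring
        have h7 : 23.2 / η = 23.2 * (1 / η) := by ring
        rw [h6] at h1
        rw [h7] at h2
        rw [h5, hi']
        linarith
      have hsplit : (1 + κ) ^ η = (1 + κ) ^ (η / 2) * (1 + κ) ^ (η / 2) := by
        rw [← Real.rpow_add hx0]; congr 1; ring
      have hbfin : b ≤ 4 * κ * (90 / η * (1 + κ) ^ (η / 2)) * (15000 * (1 + κ) ^ (η / 2)) := by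
        rw [hb]
        have e : 2 * (2 * i) + 1 = 4 * i + 1 := by ring
        rw [e]
        have e2 : ((2 * i : ℕ) : ℝ) + 1 = 2 * (i : ℝ) + 1 := by push_cast; ring
        rw [e2]
        exact mul_le_mul (mul_le_mul_of_nonneg_left hnum (by linarith)) hfac (by positivity)
          (by positivity)
      have hbfin2 : b ≤ 5400000 / η * (κ * (1 + κ) ^ η) := by
        refine hbfin.trans (le_of_eq ?_)
        rw [hsplit]; ring
      have h8 : (8 : ℝ) ≤ Real.exp (4 * κ) := by
        have h5 : Real.exp (4 * 0.69) ≤ Real.exp (4 * κ) := Real.exp_le_exp.2 (by linarith)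
        have h6 : (2.718 : ℝ) ≤ Real.exp 1 := by have := Real.exp_one_gt_d9; linarith
        have h7 : Real.exp 1 ^ 2 ≤ Real.exp (4 * 0.69) := by
          rw [← Real.exp_nat_mul]
          apply Real.exp_le_exp.2; norm_num
        have h9 : 1 + 0.76 ≤ Real.exp 0.76 := by
          have := Real.add_one_le_exp (0.76 : ℝ); linarith
        have h10 : Real.exp (4 * 0.69) = Real.exp 1 ^ 2 * Real.exp 0.76 := by
          rw [← Real.exp_nat_mul, ← Real.exp_add]; congr 1; norm_num
        rw [h10] at h5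
        have h11 : (2.718 : ℝ) ^ 2 ≤ Real.exp 1 ^ 2 := pow_le_pow_left₀ (by norm_num) h6 2
        have h12 : (2.718 : ℝ) ^ 2 * (1 + 0.76) ≤ Real.exp 1 ^ 2 * Real.exp 0.76 :=
          mul_le_mul h11 h9 (by norm_num) (by positivity)
        have h13 : (8 : ℝ) ≤ (2.718 : ℝ) ^ 2 * (1 + 0.76) := by norm_num
        exact (h13.trans h12).trans h5
      have hκη : κ ≤ 1 / η * (κ * (1 + κ) ^ η) := by
        have h1 : (1 : ℝ) ≤ (1 + κ) ^ η := Real.one_le_rpow hx1 hη.le
        have h2 : κ ≤ κ * (1 + κ) ^ η := le_mul_of_one_le_right (by linarith) h1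
        have h3 : κ * (1 + κ) ^ η ≤ 1 / η * (κ * (1 + κ) ^ η) :=
          le_mul_of_one_le_left (by positivity) hηinv
        linarith
      have hDfin : D ≤ 32 / η * (κ * (1 + κ) ^ η) := by
        have h1 : (1 : ℝ) ≤ (1 + κ) ^ η := Real.one_le_rpow hx1 hη.le
        have h2 : κ ≤ κ * (1 + κ) ^ η := le_mul_of_one_le_right (by linarith) h1
        have e : D = 32 / η * κ := by rw [hD, hθ]; field_simp; norm_num
        rw [e]
        exact mul_le_mul_of_nonneg_left h2 (by positivity)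
      calc 8 * Real.exp (2 * b + 2 * l + 2 * D)
          ≤ Real.exp (4 * κ) * Real.exp (2 * b + 2 * l + 2 * D) :=
            mul_le_mul_of_nonneg_right h8 (Real.exp_pos _).le
        _ = Real.exp (4 * κ + (2 * b + 2 * l + 2 * D)) := by rw [← Real.exp_add]
        _ ≤ _ := by
            apply Real.exp_le_exp.2
            have e1 : 5400000 / η * (κ * (1 + κ) ^ η) = 5400000 * (1 / η * (κ * (1 + κ) ^ η)) := by ring
            have e2 : 32 / η * (κ * (1 + κ) ^ η) = 32 * (1 / η * (κ * (1 + κ) ^ η)) := by ring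
            have e3 : 20000000 / η * (κ * (1 + κ) ^ η) = 20000000 * (1 / η * (κ * (1 + κ) ^ η)) := by ring
            have hnn : 0 ≤ 1 / η * (κ * (1 + κ) ^ η) := by positivity
            rw [e1] at hbfin2
            rw [e2] at hDfin
            rw [e3]
            linarith

end Pool.Agent.V5helper1.PC
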