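import Pool.Agent.V5helper1.PC.Main
import Pool.Agent.V5helper1.PC.Num
set_option autoImplicit false

/-! The final theorem for finitely generated groups and for all abelian groups. -/

namespace Pool.Agent.V5helper1.PC

open Finset H112
open scoped Pointwise ENNReal

theorem poly_cover_fg {G : Type*} [AddCommGroup G] [AddGroup.FG G] [DecidableEq G] {K : ℝ}
    {A : Finset G} (hA : A.Nonempty) (hK : ((A + A).card : ℝ) ≤ K * A.card) (hK1 : 1 ≤ K)
    {η : ℝ} (hη : 0 < η) (hη1 : η ≤ 1) :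
    ∃ (d : ℕ) (B : Set (Fin d → ℝ)) (ψ : (Fin d → ℤ) →+ G) (H₀ : AddSubgroup G) (T : Finset G),
      (d : ℝ) ≤ 40000 / η * Real.log (2 * K) ∧ SymmBody B ∧ Finite H₀ ∧
      (({c : Fin d → ℤ | (fun i => (c i : ℝ)) ∈ B}.ncard * Nat.card H₀ : ℕ) : ℝ) ≤
        Real.exp (20000000 / η * (Real.log (2 * K) * (1 + Real.log (2 * K)) ^ η)) * A.card ∧
      (T.card : ℝ) ≤ (2 * K) ^ (14000 / η) ∧
      Covers B ψ H₀ T A := by
  obtain ⟨κ, hκ⟩ : ∃ κ : ℝ, κ = Real.log (2 * K) := ⟨_, rfl⟩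
  have hκlog2 : Real.log 2 ≤ κ := by
    rw [hκ]; exact Real.log_le_log (by norm_num) (by linarith)
  have hκ69 : (0.69 : ℝ) < κ := lt_of_lt_of_le log_two_gt hκlog2
  have hlogK : Real.log K ≤ κ := by
    rw [hκ]; exact Real.log_le_log (by linarith) (by linarith)
  have hlogK0 : 0 ≤ Real.log K := Real.log_nonneg hK1
  obtain ⟨j, hj⟩ := scale_choice hκ69 hη hη1
  obtain ⟨b, hb⟩ : ∃ b : ℝ, b = 4 * κ * (j + 1) * (1 + η / 16) ^ (2 * j + 1) := ⟨_, rfl⟩
  obtain ⟨D, hD⟩ : ∃ D : ℝ, D = 2 / (η / 16) * κ := ⟨_, rfl⟩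
  obtain ⟨ε, hε⟩ : ∃ ε : ℝ, ε = 2 * κ * (j + 2) * (1 + η / 16) ^ (j + 1) / 2 ^ j := ⟨_, rfl⟩
  obtain ⟨hρ, hj2⟩ := hj b D ε hb hD hε
  obtain ⟨htail, hV⟩ := hj2 (Real.log K) hlogK
  obtain ⟨S, X, hfin, hsize, hX, hXcard⟩ :=
    core hA hK hK1 (show 0 < η / 16 by positivity) j hκ hb hD hε hρ htail
  have hsize' : ((bohr S (1 / 6)).ncard : ℝ) ≤
      Real.exp (20000000 / η * (κ * (1 + κ) ^ η)) * A.card :=
    hsize.trans (mul_le_mul_of_nonneg_right hV (Nat.cast_nonneg _))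
  obtain ⟨d, B, ψ, H₀, T, hd, hB, hH₀, hvol, hT, hcov⟩ :=
    pc_struct hA hK hK1 hfin hsize' hX hXcard
  have hηinv : (1 : ℝ) ≤ 1 / η := by rw [le_div_iff₀ hη]; linarith
  have hlogKM : Real.log (K * (K * Real.exp (2 * D + 1))) ≤ 68 / η * κ := by
    have hK0 : K ≠ 0 := by linarith
    rw [Real.log_mul hK0 (by positivity), Real.log_mul hK0 (Real.exp_ne_zero _), Real.log_exp]
    have e : D = 32 * (1 / η * κ) := by rw [hD]; field_simp; norm_num
    have e2 : 68 / η * κ = 68 * (1 / η * κ) := by ring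
    have h1 : κ ≤ 1 / η * κ := le_mul_of_one_le_left (by linarith) hηinv
    rw [e, e2]
    linarith
  refine ⟨d, B, ψ, H₀, T, ?_, hB, hH₀, ?_, ?_, hcov⟩
  · rw [← hκ]
    have e2 : 40000 / η * κ = 40000 * (1 / η * κ) := by ring
    have e3 : 68 / η * κ = 68 * (1 / η * κ) := by ring
    have h1 : κ ≤ 1 / η * κ := le_mul_of_one_le_left (by linarith) hηinv
    rw [e3] at hlogKM
    rw [e2]
    linarith
  · rw [← hκ]; exact hvol
  · refine hT.trans ?_
    have hKM0 : 0 < K * (K * Real.exp (2 * D + 1)) := by positivity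
    rw [← Real.exp_log hKM0, ← Real.exp_nat_mul, Real.rpow_def_of_pos (by linarith), ← hκ]
    apply Real.exp_le_exp.2
    have e2 : κ * (14000 / η) = 14000 * (1 / η * κ) := by ring
    have e3 : 68 / η * κ = 68 * (1 / η * κ) := by ring
    have h1 : κ ≤ 1 / η * κ := le_mul_of_one_le_left (by linarith) hηinv
    rw [e3] at hlogKM
    rw [e2]
    push_cast
    linarith

/-- **Polynomially many translates.** -/
theorem poly_cover {G : Type*} [AddCommGroup G] [DecidableEq G] {K : ℝ}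
    {A : Finset G} (hA : A.Nonempty) (hK : ((A + A).card : ℝ) ≤ K * A.card)
    {η : ℝ} (hη : 0 < η) (hη1 : η ≤ 1) :
    ∃ (d : ℕ) (B : Set (Fin d → ℝ)) (ψ : (Fin d → ℤ) →+ G) (H₀ : AddSubgroup G) (T : Finset G),
      (d : ℝ) ≤ 40000 / η * Real.log (2 * K) ∧ SymmBody B ∧ Finite H₀ ∧
      (({c : Fin d → ℤ | (fun i => (c i : ℝ)) ∈ B}.ncard * Nat.card H₀ : ℕ) : ℝ) ≤
        Real.exp (20000000 / η * (Real.log (2 * K) * (1 + Real.log (2 * K)) ^ η)) * A.card ∧
      (T.card : ℝ) ≤ (2 * K) ^ (14000 / η) ∧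
      Covers B ψ H₀ T A := by
  classical
  have hApos : (0 : ℝ) < A.card := by exact_mod_cast hA.card_pos
  have hK1 : 1 ≤ K := by
    have h1 : (A.card : ℝ) ≤ (A + A).card := by
      exact_mod_cast Finset.card_le_card_add_right hA
    nlinarith
  obtain ⟨Γ, hΓ⟩ : ∃ Γ : AddSubgroup G, Γ = AddSubgroup.closure (A : Set G) := ⟨_, rfl⟩
  obtain ⟨A', hA'⟩ := exists_model A Γ (fun a ha => by
    rw [hΓ]; exact AddSubgroup.subset_closure ha)
  have hinj : Function.Injective Γ.subtype := Γ.subtype_injective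
  have : AddGroup.FG Γ := by
    rw [AddGroup.fg_iff_addSubgroup_fg]
    exact ⟨A, hΓ.symm⟩
  have hA'ne : A'.Nonempty := by
    rw [← hA'] at hA; exact Finset.image_nonempty.1 hA
  have hcard : A'.card = A.card := by
    rw [← hA', Finset.card_image_of_injective _ hinj]
  have hcard2 : (A' + A').card = (A + A).card := by
    rw [← hA', ← Finset.image_add, Finset.card_image_of_injective _ hinj]
  have hK' : ((A' + A').card : ℝ) ≤ K * A'.card := by rw [hcard2, hcard]; exact hK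
  obtain ⟨d, B, ψ, H₀, T, hd, hB, hH₀, hvol, hT, hcov⟩ := poly_cover_fg hA'ne hK' hK1 hη hη1
  refine ⟨d, B, Γ.subtype.comp ψ, H₀.map Γ.subtype, T.image Γ.subtype, hd, hB, ?_, ?_, ?_, ?_⟩
  · have : (H₀.map Γ.subtype : Set G).Finite := by
      rw [AddSubgroup.coe_map]
      exact (Set.toFinite (H₀ : Set Γ)).image _
    exact this.to_subtype
  · have h1 : Nat.card (H₀.map Γ.subtype) = Nat.card H₀ :=
      Nat.card_congr (H₀.equivMapOfInjective Γ.subtype hinj).toEquiv.symm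
    rw [h1, ← hcard]
    exact hvol
  · refine le_trans ?_ hT
    exact_mod_cast Finset.card_image_le
  · intro a ha
    rw [← hA'] at ha
    obtain ⟨a', ha', rfl⟩ := Finset.mem_image.1 ha
    obtain ⟨t, ht, c, hc, h, hh, e⟩ := hcov a' ha'
    refine ⟨Γ.subtype t, Finset.mem_image_of_mem _ ht, c, hc, Γ.subtype h, ⟨h, hh, rfl⟩, ?_⟩
    rw [e, map_add, map_add]
    rfl

end Pool.Agent.V5helper1.PC
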