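import Pool.Agent.V5helper1.PC.Lat
import Pool.Agent.H137R2.Weak.Final
set_option autoImplicit false

/-! A large part of a subset of a Bohr set is in few dimensions: the weak Marton theorem for the
graph of the lift to the space of bounded functions. -/

namespace Pool.Agent.V5helper1.PC

open Finset H112
open scoped Pointwise

/-- real version of the weak Marton theorem: a set `A` with a map `f` to a real vector space which is
determined on sums has a large part whose image is in few dimensions. -/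
theorem rank_part {G : Type*} [AddCommGroup G] [DecidableEq G] {E : Type*} [AddCommGroup E]
    [Module ℝ E]
    (f : G → E) (g : G → E) {A : Finset G} (hA : A.Nonempty) {K : ℝ}
    (hK : ((A + A).card : ℝ) ≤ K * A.card)
    (hf : ∀ a ∈ A, ∀ b ∈ A, f a + f b = g (a + b)) :
    ∃ A' ⊆ A, A'.Nonempty ∧ (A.card : ℝ) ≤ K ^ 185 * A'.card ∧
      ∃ S : Finset E, (S.card : ℝ) ≤ 480 * Real.log K + 1 ∧
        ∀ a ∈ A', ∀ b ∈ A', f a - f b ∈ Submodule.span ℝ (S : Set E) := by
  classical
  set F : G → E × G := fun a => (f a, a) with hF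
  have hFinj : Function.Injective F := fun a b h => (Prod.ext_iff.1 h).2
  set Â : Finset (E × G) := A.image F with hÂ
  have hcard : Â.card = A.card := Finset.card_image_of_injective _ hFinj
  have hÂne : Â.Nonempty := hA.image _
  have hsum : Â + Â ⊆ (A + A).image (fun z => (g z, z)) := by
    intro z hz
    obtain ⟨u, hu, v, hv, rfl⟩ := Finset.mem_add.1 hz
    obtain ⟨a, ha, rfl⟩ := Finset.mem_image.1 hu
    obtain ⟨b, hb, rfl⟩ := Finset.mem_image.1 hv
    refine Finset.mem_image.2 ⟨a + b, Finset.add_mem_add ha hb, ?_⟩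
    simp only [hF, Prod.mk_add_mk]
    rw [hf a ha b hb]
  have hcard2 : (Â + Â).card ≤ (A + A).card :=
    (Finset.card_le_card hsum).trans Finset.card_image_le
  have hK' : ((Â + Â).card : ℝ) ≤ K * Â.card := by
    rw [hcard]
    have : ((Â + Â).card : ℝ) ≤ (A + A).card := by exact_mod_cast hcard2
    linarith
  have hApos : (0 : ℝ) < A.card := by exact_mod_cast hA.card_pos
  have hK1 : 1 ≤ K := by
    have h1 : (A.card : ℝ) ≤ (A + A).card := by
      exact_mod_cast Finset.card_le_card_add_right hA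
    nlinarith
  have hK0 : 0 < K := by linarith
  obtain ⟨P, S, T, hPfin, -, -, hS, hTA, hT, hcov⟩ :
      ∃ (P : AddSubgroup (E × G)) (S T : Finset (E × G)), Finite P ∧ Nat.card P ≤ Â.card ∧
      (((Â : Set (E × G)) + (P : Set (E × G))).ncard : ℝ) ≤ 2 * K ^ 370 * Â.card ∧
      (S.card : ℝ) ≤ 480 * Real.log K + 1 ∧ T ⊆ Â ∧ (T.card : ℝ) ≤ K ^ 185 ∧
      ∀ a ∈ Â, ∃ t ∈ T, ∃ o : E × G, (∃ m : ℕ, Odd m ∧ m • o = 0) ∧
        a - t - o ∈ P ⊔ AddSubgroup.closure (S : Set (E × G)) := by
    have key : ∀ d : DecidableEq (E × G), ((@HAdd.hAdd _ _ _ (@instHAdd _ (@Finset.add _ d _)) Â Â).card : ℝ)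
        ≤ K * Â.card → ∃ (P : AddSubgroup (E × G)) (S T : Finset (E × G)), Finite P ∧ Nat.card P ≤ Â.card ∧
      (((Â : Set (E × G)) + (P : Set (E × G))).ncard : ℝ) ≤ 2 * K ^ 370 * Â.card ∧
      (S.card : ℝ) ≤ 480 * Real.log K + 1 ∧ T ⊆ Â ∧ (T.card : ℝ) ≤ K ^ 185 ∧
      ∀ a ∈ Â, ∃ t ∈ T, ∃ o : E × G, (∃ m : ℕ, Odd m ∧ m • o = 0) ∧
        a - t - o ∈ P ⊔ AddSubgroup.closure (S : Set (E × G)) := by
      intro d
      have hd : d = (fun a b => Classical.propDecidable (a = b)) := Subsingleton.elim _ _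
      subst hd
      exact H137.Weak.weak_marton hÂne
    exact key _ hK'
  -- torsion elements have first component zero
  have htor : ∀ (n : ℕ) (o : E × G), n ≠ 0 → n • o = 0 → o.1 = 0 := by
    intro n o hn h
    have h1 : n • o.1 = 0 := by
      have := congrArg Prod.fst h
      simpa using this
    have h2 : (n : ℝ) • o.1 = 0 := by rw [Nat.cast_smul_eq_nsmul]; exact h1
    rcases smul_eq_zero.1 h2 with h3 | h3
    · exact absurd (by exact_mod_cast h3) hn
    · exact h3
  set W : Submodule ℝ E := Submodule.span ℝ ((S.image Prod.fst : Finset E) : Set E) with hW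
  have hclo : ∀ s ∈ AddSubgroup.closure (S : Set (E × G)), s.1 ∈ W := by
    intro s hs
    induction hs using AddSubgroup.closure_induction with
    | mem x hx =>
      exact Submodule.subset_span (by
        rw [Finset.coe_image]
        exact ⟨x, hx, rfl⟩)
    | zero => exact W.zero_mem
    | add x y _ _ hx hy =>
      rw [Prod.fst_add]; exact W.add_mem hx hy
    | neg x _ hx =>
      rw [Prod.fst_neg]; exact W.neg_mem hx
  have hmemW : ∀ z ∈ P ⊔ AddSubgroup.closure (S : Set (E × G)), z.1 ∈ W := by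
    intro z hz
    obtain ⟨p, hp, s, hs, rfl⟩ := AddSubgroup.mem_sup.1 hz
    have hp1 : p.1 = 0 := by
      have hfo : addOrderOf (⟨p, hp⟩ : P) ≠ 0 := (addOrderOf_pos _).ne'
      refine htor (addOrderOf (⟨p, hp⟩ : P)) p hfo ?_
      have := addOrderOf_nsmul_eq_zero (⟨p, hp⟩ : P)
      have h2 := congrArg Subtype.val this
      simpa using h2
    rw [Prod.fst_add, hp1, zero_add]
    exact hclo s hs
  -- every element is close to some `t`
  have hcov' : ∀ a ∈ A, ∃ t ∈ T, f a - t.1 ∈ W := by
    intro a ha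
    obtain ⟨t, ht, o, ⟨n, hn, ho⟩, hmem⟩ := hcov (F a) (Finset.mem_image_of_mem _ ha)
    refine ⟨t, ht, ?_⟩
    have h1 := hmemW _ hmem
    have h2 : o.1 = 0 := htor n o (by rintro rfl; simp at hn) ho
    rw [Prod.fst_sub, Prod.fst_sub, h2, sub_zero] at h1
    exact h1
  choose! τ hτT hτ using hcov'
  -- pigeonhole
  have hTne : T.Nonempty := by
    obtain ⟨a, ha⟩ := hA
    exact ⟨τ a, hτT a ha⟩
  obtain ⟨t, ht, htc⟩ : ∃ t ∈ T, (A.card : ℝ) ≤ K ^ 185 * (A.filter fun a => τ a = t).card := by
    by_contra hcon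
    push Not at hcon
    have h1 : (A.card : ℝ) = ∑ t ∈ T, ((A.filter fun a => τ a = t).card : ℝ) := by
      have := Finset.card_eq_sum_card_fiberwise (s := A) (t := T) (f := τ) (fun a ha => hτT a ha)
      exact_mod_cast this
    have h2 : K ^ 185 * ∑ t ∈ T, ((A.filter fun a => τ a = t).card : ℝ) < ∑ t ∈ T, (A.card : ℝ) := by
      rw [Finset.mul_sum]
      exact Finset.sum_lt_sum_of_nonempty hTne fun t ht => hcon t ht
    rw [← h1, Finset.sum_const, nsmul_eq_mul] at h2
    have h3 : (T.card : ℝ) * A.card ≤ K ^ 185 * A.card :=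
      mul_le_mul_of_nonneg_right hT hApos.le
    linarith
  refine ⟨A.filter fun a => τ a = t, Finset.filter_subset _ _, ?_, htc, S.image Prod.fst, ?_, ?_⟩
  · rw [← Finset.card_pos]
    by_contra hcon
    have h0 : (A.filter fun a => τ a = t).card = 0 := by omega
    rw [h0] at htc
    simp only [Nat.cast_zero, mul_zero] at htc
    linarith
  · refine le_trans ?_ hS
    exact_mod_cast Finset.card_image_le
  · intro a ha b hb
    rw [Finset.mem_filter] at ha hb
    have h1 := hτ a ha.1
    have h2 := hτ b hb.1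
    rw [ha.2] at h1
    rw [hb.2] at h2
    have h3 : f a - f b = (f a - t.1) - (f b - t.1) := by abel
    rw [h3]
    exact W.sub_mem h1 h2

end Pool.Agent.V5helper1.PC
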