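import Pool.Agent.V5helper1.PC.Pair
import Pool.Agent.V5helper1.PC.Rank
import Pool.Agent.H112R2.Final
set_option autoImplicit false

/-! Assembly: polynomially many translates of a convex coset progression of dimension `O(log K)`. -/

namespace Pool.Agent.V5helper1.PC

open Finset H112
open scoped Pointwise ENNReal

variable {G : Type*} [AddCommGroup G]

theorem lv_add (S : Set (G →+ UnitAddCircle)) {u v : G} (hu : u ∈ bohr S (1 / 12))
    (hv : v ∈ bohr S (1 / 12)) : lv S u + lv S v = lv S (u + v) := by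
  ext γ
  have h1 : |lrep (γ.1 u)| ≤ 1 / 12 := by rw [lrep_abs]; exact hu _ γ.2
  have h2 : |lrep (γ.1 v)| ≤ 1 / 12 := by rw [lrep_abs]; exact hv _ γ.2
  have h3 : ‖γ.1 (u + v)‖ ≤ 1 / 6 := by
    rw [map_add]
    refine (norm_add_le _ _).trans ?_
    have := hu _ γ.2
    have := hv _ γ.2
    linarith
  rw [lp.coeFn_add, Pi.add_apply, lv_apply, lv_apply, lv_apply]
  apply lattice_unique
  · calc |lrep (γ.1 u) + lrep (γ.1 v)| ≤ |lrep (γ.1 u)| + |lrep (γ.1 v)| := abs_add_le _ _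
      _ < 1 / 2 := by linarith
  · rw [lrep_abs]; linarith
  · rw [AddCircle.coe_add, lrep_coe, lrep_coe, lrep_coe, map_add]

theorem lv_sub (S : Set (G →+ UnitAddCircle)) {u v : G} (hu : u ∈ bohr S (1 / 12))
    (hv : v ∈ bohr S (1 / 12)) : lv S u - lv S v = lv S (u - v) := by
  ext γ
  have h1 : |lrep (γ.1 u)| ≤ 1 / 12 := by rw [lrep_abs]; exact hu _ γ.2
  have h2 : |lrep (γ.1 v)| ≤ 1 / 12 := by rw [lrep_abs]; exact hv _ γ.2
  have h3 : ‖γ.1 (u - v)‖ ≤ 1 / 6 := by
    rw [map_sub]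
    refine (norm_sub_le _ _).trans ?_
    have := hu _ γ.2
    have := hv _ γ.2
    linarith
  rw [lp.coeFn_sub, Pi.sub_apply, lv_apply, lv_apply, lv_apply]
  apply lattice_unique
  · calc |lrep (γ.1 u) - lrep (γ.1 v)| ≤ |lrep (γ.1 u)| + |lrep (γ.1 v)| := abs_sub _ _
      _ < 1 / 2 := by linarith
  · rw [lrep_abs]; linarith
  · rw [AddCircle.coe_sub, lrep_coe, lrep_coe, lrep_coe, map_sub]

theorem pc_struct [DecidableEq G] {K : ℝ} {A : Finset G} (hA : A.Nonempty)
    (hK : ((A + A).card : ℝ) ≤ K * A.card) (hK1 : 1 ≤ K)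
    {S : Set (G →+ UnitAddCircle)} {X : Finset G} {V M : ℝ}
    (hfin : (bohr S (1 / 6)).Finite) (hsize : ((bohr S (1 / 6)).ncard : ℝ) ≤ V * A.card)
    (hX : ∀ a ∈ A, ∃ x ∈ X, a - x ∈ bohr S (1 / 12)) (hXcard : (X.card : ℝ) ≤ M) :
    ∃ (d : ℕ) (B : Set (Fin d → ℝ)) (ψ : (Fin d → ℤ) →+ G) (H₀ : AddSubgroup G) (T : Finset G),
      (d : ℝ) ≤ 480 * Real.log (K * M) + 1 ∧ SymmBody B ∧ Finite H₀ ∧
      (({c : Fin d → ℤ | (fun i => (c i : ℝ)) ∈ B}.ncard * Nat.card H₀ : ℕ) : ℝ) ≤ V * A.card ∧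
      (T.card : ℝ) ≤ (K * M) ^ 186 ∧ Covers B ψ H₀ T A := by
  classical
  have hApos : (0 : ℝ) < A.card := by exact_mod_cast hA.card_pos
  choose! τ hτX hτ using hX
  have hXne : X.Nonempty := by
    obtain ⟨a, ha⟩ := hA
    exact ⟨τ a, hτX a ha⟩
  have hM1 : 1 ≤ M := by
    have : (1 : ℝ) ≤ X.card := by exact_mod_cast hXne.card_pos
    linarith
  obtain ⟨x, hx, hxc⟩ : ∃ x ∈ X, (A.card : ℝ) ≤ M * (A.filter fun a => τ a = x).card := by
    by_contra hcon
    push Not at hcon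
    have h1 : (A.card : ℝ) = ∑ x ∈ X, ((A.filter fun a => τ a = x).card : ℝ) := by
      have := Finset.card_eq_sum_card_fiberwise (s := A) (t := X) (f := τ) (fun a ha => hτX a ha)
      exact_mod_cast this
    have h2 : M * ∑ x ∈ X, ((A.filter fun a => τ a = x).card : ℝ) < ∑ x ∈ X, (A.card : ℝ) := by
      rw [Finset.mul_sum]
      exact Finset.sum_lt_sum_of_nonempty hXne fun t ht => hcon t ht
    rw [← h1, Finset.sum_const, nsmul_eq_mul] at h2
    have h3 : (X.card : ℝ) * A.card ≤ M * A.card :=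
      mul_le_mul_of_nonneg_right hXcard hApos.le
    linarith
  set A' := A.filter fun a => τ a = x with hA'
  have hA'sub : A' ⊆ A := Finset.filter_subset _ _
  have hA'x : ∀ a ∈ A', a - x ∈ bohr S (1 / 12) := by
    intro a ha
    rw [hA', Finset.mem_filter] at ha
    have := hτ a ha.1
    rwa [ha.2] at this
  have hA'ne : A'.Nonempty := by
    rw [← Finset.card_pos]
    by_contra hcon
    have h0 : A'.card = 0 := by omega
    rw [h0] at hxc
    simp only [Nat.cast_zero, mul_zero] at hxc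
    linarith
  have hKM1 : 1 ≤ K * M := by nlinarith
  have hK'  : ((A' + A').card : ℝ) ≤ (K * M) * A'.card := by
    have h1 : ((A' + A').card : ℝ) ≤ (A + A).card := by
      exact_mod_cast Finset.card_le_card (Finset.add_subset_add hA'sub hA'sub)
    calc ((A' + A').card : ℝ) ≤ K * A.card := h1.trans hK
      _ ≤ K * (M * A'.card) := mul_le_mul_of_nonneg_left hxc (by linarith)
      _ = _ := by ring
  obtain ⟨A'', hA''sub, hA''ne, hA''c, S', hS'card, hS'⟩ :=
    rank_part (fun a => lv S (a - x)) (fun z => lv S (z - x - x)) hA'ne hK' (by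
      intro a ha b hb
      rw [lv_add S (hA'x a ha) (hA'x b hb)]
      congr 1
      abel)
  obtain ⟨D, hD⟩ : ∃ D : Set G, D = {z | ∃ a ∈ A'', ∃ b ∈ A'', z = a - b} := ⟨_, rfl⟩
  have hDbohr : D ⊆ bohr S (1 / 6) := by
    intro z hz
    rw [hD] at hz
    obtain ⟨a, ha, b, hb, rfl⟩ := hz
    intro γ hγ
    have h1 := hA'x a (hA''sub ha) γ hγ
    have h2 := hA'x b (hA''sub hb) γ hγ
    have h3 : a - b = (a - x) - (b - x) := by abel
    rw [h3, map_sub]
    exact (norm_sub_le _ _).trans (by linarith)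
  obtain ⟨m, N, ψ, hm, hN, h1, h2⟩ := lattice_sub S hfin D hDbohr
  have hdim : m ≤ S'.card := by
    rw [hm]
    have h3 : Submodule.span ℝ (lv S '' D) ≤ Submodule.span ℝ (S' : Set (LatE S)) := by
      rw [Submodule.span_le]
      rintro _ ⟨z, hz, rfl⟩
      rw [hD] at hz
      obtain ⟨a, ha, b, hb, rfl⟩ := hz
      have h4 := hS' a ha b hb
      rw [lv_sub S (hA'x a (hA''sub ha)) (hA'x b (hA''sub hb))] at h4
      have h5 : a - x - (b - x) = a - b := by abel
      rw [h5] at h4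
      exact h4
    have : FiniteDimensional ℝ (Submodule.span ℝ (S' : Set (LatE S))) :=
      FiniteDimensional.span_finset ℝ S'
    exact (Submodule.finrank_mono h3).trans (finrank_span_finset_le_card S')
  have hannfin := ann_finite hfin
  obtain ⟨-, hvol⟩ := card_LL_le hfin hN h1 (R := 1 / 6) (by norm_num) le_rfl
  -- Ruzsa covering
  have hcov : ((A + A'').card : ℝ) ≤ (K * M * (K * M) ^ 185) * A''.card := by
    have h3 : ((A + A'').card : ℝ) ≤ (A + A).card := by
      exact_mod_cast Finset.card_le_card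
        (Finset.add_subset_add_left (hA''sub.trans hA'sub))
    calc ((A + A'').card : ℝ) ≤ K * A.card := h3.trans hK
      _ ≤ K * (M * A'.card) := mul_le_mul_of_nonneg_left hxc (by linarith)
      _ ≤ K * (M * ((K * M) ^ 185 * A''.card)) := by gcongr
      _ = _ := by ring
  obtain ⟨T, hTA, hTcard, hT⟩ := Finset.ruzsa_covering_add hA''ne hcov
  refine ⟨m, {v | N v ≤ 1 / 6}, ψ, ann S, T, ?_, symmBody_ball N hN (by norm_num), hannfin, ?_, ?_, ?_⟩
  · have : (m : ℝ) ≤ S'.card := by exact_mod_cast hdim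
    linarith
  · refine le_trans ?_ hsize
    exact_mod_cast hvol
  · refine hTcard.trans (le_of_eq ?_)
    ring
  · intro a ha
    obtain ⟨t, ht, y, hy, hty⟩ := Finset.mem_add.1 (hT ha)
    obtain ⟨u, hu, v, hv, huv⟩ := Finset.mem_sub.1 hy
    have hyD : y ∈ D := by rw [hD]; exact ⟨u, hu, v, hv, huv.symm⟩
    obtain ⟨c, hc, hc2⟩ := h2 y hyD
    refine ⟨t, ht, c, hc, y - ψ c, hc2, ?_⟩
    rw [← hty]; abel

end Pool.Agent.V5helper1.PC
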